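import Pool.Agent.H98.EX.BTargets

/-!
# MP_65efe8_pr, row BND of exa_modules: the pairs close to a boundary
-/

set_option autoImplicit false

open scoped ENNReal
open Pool.Agent.H99.CE (TT)

namespace Pool.Agent.H91.EX

open Pool.Agent.H98.EX

private theorem sumTT (G : ℕ → ℝ≥0∞) (n0 J : ℕ) :
    ∑ j ∈ Finset.range J, ∑ c' ∈ TT n0 j, G c' = ∑ c' ∈ Finset.range (J * n0), G c' := by
  induction J with
  | zero => simp
  | succ J ih =>
    rw [Finset.sum_range_succ, ih, Finset.range_eq_Ico, Finset.range_eq_Ico, TT,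
      Finset.sum_Ico_consecutive _ (Nat.zero_le _) (Nat.mul_le_mul_right _ (Nat.le_succ _))]

/-- a sum of indicators -/
private theorem ind_le (f : ℕ → ℝ≥0∞) (n0 N R : ℕ) (P : ℕ → ℕ → Prop)
    [∀ c d, Decidable (P c d)] (h : ∀ d, ((Finset.range n0).filter fun c => P c d).card ≤ R) :
    ∑ c ∈ Finset.range n0, ∑ d ∈ Finset.range N, (if P c d then f d else 0) ≤
      R * ∑ d ∈ Finset.range N, f d := by
  rw [Finset.sum_comm, Finset.mul_sum]
  refine Finset.sum_le_sum fun d _ => ?_
  rw [← Finset.sum_filter, Finset.sum_const, nsmul_eq_mul]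
  exact mul_le_mul_left (by exact_mod_cast h d) _

/-- the number of the `c` with `(c + d) % n0` in a set -/
private theorem mod_card (n0 d R : ℕ) (S : Finset ℕ) (hS : S.card ≤ R) :
    ((Finset.range n0).filter fun c => (c + d) % n0 ∈ S).card ≤ R := by
  refine le_trans ?_ hS
  refine Finset.card_le_card_of_injOn (fun c => (c + d) % n0) (fun c hc => ?_) ?_
  · exact (Finset.mem_filter.mp (Finset.mem_coe.mp hc)).2
  · intro c hc c' hc' heq
    have h1 : c < n0 := Finset.mem_range.mp (Finset.mem_filter.mp (Finset.mem_coe.mp hc)).1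
    have h2 : c' < n0 := Finset.mem_range.mp (Finset.mem_filter.mp (Finset.mem_coe.mp hc')).1
    have h3 : c + d ≡ c' + d [MOD n0] := heq
    have h4 : c ≡ c' [MOD n0] := Nat.ModEq.add_right_cancel' d h3
    exact Nat.ModEq.eq_of_lt_of_lt h4 h1 h2

open Classical in
theorem pf_BND : T_BND := by
  intro f n0 R J hn0
  obtain ⟨N, hN⟩ : ∃ N, N = J * n0 := ⟨_, rfl⟩
  have h1 : ∑ j ∈ Finset.range J, ∑ c ∈ Finset.range n0, ∑ c' ∈ TT n0 j,
      (if c ≤ c' ∧ ¬ In R n0 c c' then f (c' - c) else 0) =
      ∑ c ∈ Finset.range n0, ∑ c' ∈ Finset.range N,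
        (if c ≤ c' ∧ ¬ In R n0 c c' then f (c' - c) else 0) := by
    rw [Finset.sum_comm, hN]
    exact Finset.sum_congr rfl fun c _ => sumTT _ n0 J
  rw [h1, ← hN]
  have h2 : ∀ c, ∑ c' ∈ Finset.range N,
      (if c ≤ c' ∧ ¬ In R n0 c c' then f (c' - c) else 0) ≤
      ∑ d ∈ Finset.range N, (if ¬ In R n0 c (c + d) then f d else 0) := by
    intro c
    refine le_trans (Finset.sum_le_sum_of_subset
      (Finset.range_mono (Nat.le_add_left N c) : Finset.range N ⊆ Finset.range (c + N))) ?_
    rw [Finset.sum_range_add]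
    have h3 : ∑ x ∈ Finset.range c,
        (if c ≤ x ∧ ¬ In R n0 c x then f (x - c) else 0) = 0 := by
      refine Finset.sum_eq_zero fun x hx => ?_
      rw [if_neg]
      intro h
      have := Finset.mem_range.mp hx
      omega
    rw [h3, zero_add]
    refine Finset.sum_le_sum fun d _ => le_of_eq ?_
    rw [Nat.add_sub_cancel_left]
    by_cases h : In R n0 c (c + d)
    · rw [if_neg (fun h' => h'.2 h), if_neg (fun h' => h' h)]
    · rw [if_pos ⟨Nat.le_add_right _ _, h⟩, if_pos h]
  have h4 : ∀ c d, (if ¬ In R n0 c (c + d) then f d else 0) ≤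
      (if c < R then f d else 0) + (if n0 ≤ c + R then f d else 0) +
      (if (c + d) % n0 ∈ Finset.range R then f d else 0) +
      (if (c + d) % n0 ∈ Finset.Ico (n0 - R) n0 then f d else 0) +
      (if d < 2 * R then f d else 0) := by
    intro c d
    by_cases h : In R n0 c (c + d)
    · rw [if_neg (fun h' => h' h)]
      exact bot_le
    · rw [if_pos h]
      have hmod : (c + d) % n0 < n0 := Nat.mod_lt _ hn0
      have h5 : c < R ∨ n0 ≤ c + R ∨ (c + d) % n0 ∈ Finset.range R ∨
          (c + d) % n0 ∈ Finset.Ico (n0 - R) n0 ∨ d < 2 * R := by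
        by_contra hcon
        simp only [not_or, Finset.mem_range, Finset.mem_Ico, not_and, not_lt, not_le] at hcon
        obtain ⟨a1, a2, a3, a4, a5⟩ := hcon
        refine h ⟨a1, a2, a3, ?_, by omega⟩
        by_contra hc
        have := a4 (by omega)
        omega
      rcases h5 with h5 | h5 | h5 | h5 | h5
      · rw [if_pos h5]
        refine le_trans ?_ (le_add_right (le_add_right (le_add_right le_self_add)))
        exact le_rfl
      · rw [if_pos h5]
        refine le_trans ?_ (le_add_right (le_add_right (le_add_right le_add_self)))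
        exact le_rfl
      · rw [if_pos h5]
        refine le_trans ?_ (le_add_right (le_add_right le_add_self))
        exact le_rfl
      · rw [if_pos h5]
        refine le_trans ?_ (le_add_right le_add_self)
        exact le_rfl
      · rw [if_pos h5]
        exact le_add_self
  have c1 := ind_le f n0 N R (fun c _ => c < R) (fun d => by
    refine (Finset.card_le_card (t := Finset.range R) fun c hc => ?_).trans
      (le_of_eq (Finset.card_range R))
    exact Finset.mem_range.mpr (Finset.mem_filter.mp hc).2)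
  have c2 := ind_le f n0 N R (fun c _ => n0 ≤ c + R) (fun d => by
    refine (Finset.card_le_card (t := Finset.Ico (n0 - R) n0) fun c hc => ?_).trans ?_
    · obtain ⟨a1, a2⟩ := Finset.mem_filter.mp hc
      have := Finset.mem_range.mp a1
      exact Finset.mem_Ico.mpr ⟨by omega, this⟩
    · rw [Nat.card_Ico]
      omega)
  have c3 := ind_le f n0 N R (fun c d => (c + d) % n0 ∈ Finset.range R)
    (fun d => mod_card n0 d R _ (le_of_eq (Finset.card_range R)))
  have c4 := ind_le f n0 N R (fun c d => (c + d) % n0 ∈ Finset.Ico (n0 - R) n0)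
    (fun d => mod_card n0 d R _ (by rw [Nat.card_Ico]; omega))
  have c5 : ∑ c ∈ Finset.range n0, ∑ d ∈ Finset.range N, (if d < 2 * R then f d else 0) ≤
      n0 * ∑ d ∈ Finset.range (2 * R), f d := by
    rw [Finset.sum_const, Finset.card_range, nsmul_eq_mul]
    refine mul_le_mul_right ?_ _
    rw [← Finset.sum_filter]
    refine Finset.sum_le_sum_of_subset fun d hd => ?_
    exact Finset.mem_range.mpr (Finset.mem_filter.mp hd).2
  calc ∑ c ∈ Finset.range n0, ∑ c' ∈ Finset.range N,
        (if c ≤ c' ∧ ¬ In R n0 c c' then f (c' - c) else 0)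
      ≤ ∑ c ∈ Finset.range n0, ∑ d ∈ Finset.range N,
        ((if c < R then f d else 0) + (if n0 ≤ c + R then f d else 0) +
        (if (c + d) % n0 ∈ Finset.range R then f d else 0) +
        (if (c + d) % n0 ∈ Finset.Ico (n0 - R) n0 then f d else 0) +
        (if d < 2 * R then f d else 0)) :=
        Finset.sum_le_sum fun c _ => (h2 c).trans (Finset.sum_le_sum fun d _ => h4 c d)
    _ = ∑ c ∈ Finset.range n0, ∑ d ∈ Finset.range N, (if c < R then f d else 0) +
        ∑ c ∈ Finset.range n0, ∑ d ∈ Finset.range N, (if n0 ≤ c + R then f d else 0) +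
        ∑ c ∈ Finset.range n0, ∑ d ∈ Finset.range N,
          (if (c + d) % n0 ∈ Finset.range R then f d else 0) +
        ∑ c ∈ Finset.range n0, ∑ d ∈ Finset.range N,
          (if (c + d) % n0 ∈ Finset.Ico (n0 - R) n0 then f d else 0) +
        ∑ c ∈ Finset.range n0, ∑ d ∈ Finset.range N, (if d < 2 * R then f d else 0) := by
        simp only [Finset.sum_add_distrib]
    _ ≤ R * ∑ d ∈ Finset.range N, f d + R * ∑ d ∈ Finset.range N, f d +
        R * ∑ d ∈ Finset.range N, f d + R * ∑ d ∈ Finset.range N, f d +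
        n0 * ∑ d ∈ Finset.range (2 * R), f d :=
        add_le_add (add_le_add (add_le_add (add_le_add c1 c2) c3) c4) c5
    _ = 4 * R * ∑ d ∈ Finset.range N, f d + n0 * ∑ d ∈ Finset.range (2 * R), f d := by ring

end Pool.Agent.H91.EX
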