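import Pool.Agent.H98.EX.LTargets

/-!
# MP_65efe8_pr, row SPX of exa_modules: the shares of the pairs
-/

set_option autoImplicit false

open MeasureTheory ProbabilityTheory Filter Topology
open scoped ENNReal
open Pool.Agent.H95 Pool.Agent.H95.Cop
open Pool.Agent.H98.CE (pc WB HK OBJ nx Fl)
open Pool.Agent.H98.SLN (RG TS MM YY sd)
open Pool.Agent.H98.EX

namespace Pool.Agent.H91.EX

/-- the constant -/
private theorem cc_bd (r ϑ : ℝ) (hr0 : 0 < r) (hr : r ≤ 1 / 64) (hϑ0 : 0 < ϑ)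
    (hϑ : ϑ ≤ 1 / 2 ^ 12) : 1 ≤ cc r ϑ ∧ cc r ϑ ≤ 2 := by
  have h1 : ϑ ^ (1 / 4 : ℝ) ≤ 1 / 8 := by
    have h2 : ϑ ^ (1 / 4 : ℝ) ≤ ((1 / 2 ^ 12 : ℝ)) ^ (1 / 4 : ℝ) :=
      Real.rpow_le_rpow hϑ0.le hϑ (by norm_num)
    have h3 : ((1 / 2 ^ 12 : ℝ)) ^ (1 / 4 : ℝ) = 1 / 8 := by
      rw [show (1 / 2 ^ 12 : ℝ) = (1 / 8 : ℝ) ^ (4 : ℝ) by
        rw [show (4 : ℝ) = ((4 : ℕ) : ℝ) by norm_num, Real.rpow_natCast]; norm_num,
        ← Real.rpow_mul (by norm_num)]
      norm_num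
    linarith
  have h0 : 0 ≤ ϑ ^ (1 / 4 : ℝ) := Real.rpow_nonneg hϑ0.le _
  have h4 : 5 / 8 ≤ Real.exp (-(3 * ϑ ^ (1 / 4 : ℝ))) := by
    have := Real.add_one_le_exp (-(3 * ϑ ^ (1 / 4 : ℝ)))
    linarith
  have h5 : Real.exp (-(3 * ϑ ^ (1 / 4 : ℝ))) ≤ 1 := Real.exp_le_one_iff.2 (by linarith)
  unfold cc
  constructor
  · nlinarith
  · nlinarith [Real.exp_pos (-(3 * ϑ ^ (1 / 4 : ℝ)))]

private theorem RT_le (F G : Finset (ℕ × ℕ)) (y : ℕ → ℝ) (a b : ℕ) (h : F ⊆ G) :
    RT F y a b ≤ RT G y a b := by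
  unfold RT
  exact Finset.sum_le_sum_of_subset_of_nonneg h fun _ _ _ => (Real.exp_pos _).le

private theorem RT_split (F N : Finset (ℕ × ℕ)) (y : ℕ → ℝ) (a b : ℕ) :
    RT F y a b ≤ RT N y a b + RT (F \ N) y a b := by
  classical
  have h1 : F ⊆ N ∪ (F \ N) := by
    intro p hp
    rw [Finset.mem_union, Finset.mem_sdiff]
    by_cases h : p ∈ N
    · exact Or.inl h
    · exact Or.inr ⟨hp, h⟩
  refine (RT_le _ _ y a b h1).trans (le_of_eq ?_)
  unfold RT
  rw [Finset.sum_union Finset.disjoint_sdiff]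

open Classical in
theorem pf_SPX (hNRX : T_NRX) (_hTLQ : Pool.Agent.H98.SLN.T_TLQ) : T_SPX := by
  intro K ν α c δ r ϑ ε τ β ζ η k q n R D J hD j hj3 hjJ x
  have hα0 := hD.rx.rg.α0
  have hα1 := hD.rx.rg.α1
  have hδ1 := hD.rx.rg.δ1
  have hβ := hD.β0
  have hϑ := hD.ϑ0
  have hζ := hD.ζ0
  have hβζ := hD.βζ
  have hη := hD.η0
  have hα : 0 < α := by
    have : (1 : ℝ) / 2 ^ 20 < 1 := by norm_num
    linarith
  set γ : ℝ := 1 / (1 + α) with hγ
  have hγ0 : 0 < γ := by rw [hγ]; positivity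
  have hγ1 : γ ≤ 1 := by
    rw [hγ, div_le_one (by linarith)]
    linarith
  obtain ⟨hc1, hc2⟩ := cc_bd r ϑ hD.rx.r0 hD.r1 hϑ hD.ϑ1
  have hj3' : (3 : ℝ) ≤ j := by exact_mod_cast hj3
  have hjJ' : (j : ℝ) ≤ J := by exact_mod_cast hjJ
  set y : ℕ → ℝ := yk k ϑ x with hy
  set W' : ℝ := ∑ p ∈ PQ n D, if gX K k q ϑ x p then Real.exp (cX k ϑ x p.1 p.2) else 0 with hW'
  have hWX : WX K k q r ϑ n D x = cc r ϑ * W' := by
    rw [hW', Finset.mul_sum]
    unfold WX
    refine Finset.sum_congr rfl fun p _ => ?_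
    split_ifs <;> simp
  have hW0 : 0 ≤ W' := by
    rw [hW']
    refine Finset.sum_nonneg fun p _ => ?_
    split_ifs
    · exact (Real.exp_pos _).le
    · exact le_rfl
  have hWX0 : 0 ≤ WX K k q r ϑ n D x := by rw [hWX]; positivity
  have hw0 : 0 ≤ wX K k q r ϑ β n D J x := by
    unfold wX
    split_ifs
    · exact hWX0
    · exact le_rfl
  -- facts on the pairs of `WS` outside the bad environments
  have hkey : ∀ p ∈ WS β ζ ϑ n R j, ¬ Bd K k q ϑ β ζ η n R x p.1 p.2 →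
      p ∈ PQ n D ∧ gX K k q ϑ x p ∧ Real.exp (cX k ϑ x p.1 p.2) ≤ W' ∧
      W' ≤ Real.exp (cX k ϑ x p.1 p.2) * Real.exp (β * ζ / 4) ∧
      |cX k ϑ x p.1 p.2 - ϑ / 4 * ((p.2 : ℝ) + 1 - p.1)| ≤ β * ζ / 4 ∧
      β * ((j : ℝ) + ζ) ≤ ϑ / 4 * ((p.2 : ℝ) + 1 - p.1) ∧
      ϑ / 4 * ((p.2 : ℝ) + 1 - p.1) ≤ β * ((j : ℝ) + 1 - ζ) ∧
      W' ≤ (1 + η) * (Real.exp (cX k ϑ x p.1 p.2) * (NL R y p.1 * NR R y p.2)) ∧
      1 ≤ NL R y p.1 ∧ 1 ≤ NR R y p.2 := by
    rintro ⟨a, b⟩ hp hB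
    unfold WS at hp
    rw [Finset.mem_filter, Finset.mem_product, Finset.mem_range, Finset.mem_range] at hp
    obtain ⟨⟨ha, hb⟩, hRa, hRb, h1, h2⟩ := hp
    simp only at ha hb hRa hRb h1 h2 hB ⊢
    unfold Bd at hB
    rw [not_or, not_or, not_or, not_not, not_lt, not_lt, not_lt] at hB
    obtain ⟨hg, hB1, hB2, hB3⟩ := hB
    rw [div_le_iff₀ hϑ] at h1
    rw [le_div_iff₀ hϑ] at h2
    have h3 : β * ((j : ℝ) + ζ) ≤ ϑ / 4 * ((b : ℝ) + 1 - a) := by linarith
    have h4 : ϑ / 4 * ((b : ℝ) + 1 - a) ≤ β * ((j : ℝ) + 1 - ζ) := by linarith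
    -- the length of the pair
    have h5 : 2 * (R : ℝ) + 1 ≤ (b : ℝ) + 1 - a := by
      have h6 := hD.Rβ
      rw [le_div_iff₀ hϑ] at h6
      have h7 : 3 * β ≤ β * ((j : ℝ) + ζ) := by nlinarith
      have h8 : (2 * (R : ℝ) + 1) * ϑ ≤ ((b : ℝ) + 1 - a) * ϑ := by linarith
      exact le_of_mul_le_mul_right h8 hϑ
    have h9 : a + 2 * R ≤ b := by
      have : (a : ℝ) + 2 * R ≤ b := by linarith
      exact_mod_cast this
    have h10 : b + 1 ≤ a + D := by
      have h11 := hD.D1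
      rw [div_le_iff₀ hϑ] at h11
      have h12 : β * ((j : ℝ) + 1 - ζ) ≤ β * ((J : ℝ) + 1) :=
        mul_le_mul_of_nonneg_left (by linarith) hβ.le
      have h13 : ((b : ℝ) + 1 - a) * ϑ ≤ D * ϑ := by linarith
      have h14 := le_of_mul_le_mul_right h13 hϑ
      have : (b : ℝ) + 1 ≤ a + D := by linarith
      exact_mod_cast this
    have hR2 := hD.R2
    have hPQ : (a, b) ∈ PQ n D := by
      unfold PQ
      rw [Finset.mem_filter, Finset.mem_product, Finset.mem_range, Finset.mem_range]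
      exact ⟨⟨ha, hb⟩, by simp only; omega, by simp only; omega⟩
    obtain ⟨hN, hNL, hNR⟩ := hNRX y R a b hRa h9
    -- the sum over all pairs
    have hQ : W' ≤ Real.exp (cX k ϑ x a b) * RT (QS n) y a b := by
      have e1 : Real.exp (cX k ϑ x a b) * RT (QS n) y a b =
          ∑ p ∈ QS n, Real.exp (cX k ϑ x p.1 p.2) := by
        unfold RT cX
        rw [Finset.mul_sum]
        refine Finset.sum_congr rfl fun p _ => ?_
        rw [← Real.exp_add, ← hy]
        congr 1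
        ring
      rw [e1, hW']
      have e2 : PQ n D ⊆ QS n := by
        intro p hp
        unfold PQ at hp
        unfold QS
        rw [Finset.mem_filter] at hp ⊢
        exact ⟨hp.1, hp.2.1.le⟩
      refine le_trans (Finset.sum_le_sum fun p _ => ?_)
        (Finset.sum_le_sum_of_subset_of_nonneg e2 fun _ _ _ => (Real.exp_pos _).le)
      split_ifs
      · exact le_rfl
      · exact (Real.exp_pos _).le
    refine ⟨hPQ, hg, ?_, hQ.trans (mul_le_mul_of_nonneg_left hB2 (Real.exp_pos _).le), hB3, h3,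
      h4, ?_, hNL, hNR⟩
    · rw [hW']
      have e3 := Finset.single_le_sum (f := fun p : ℕ × ℕ =>
        if gX K k q ϑ x p then Real.exp (cX k ϑ x p.1 p.2) else 0) (s := PQ n D)
        (fun p _ => by
          split_ifs
          · exact (Real.exp_pos _).le
          · exact le_rfl) hPQ
      simp only at e3
      rw [if_pos hg] at e3
      exact e3
    · have e4 : RT (QS n) y a b ≤ (1 + η) * (NL R y a * NR R y b) := by
        have e5 := RT_split (QS n) (NS R a b) y a b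
        have e6 : 1 ≤ NL R y a * NR R y b := by nlinarith
        rw [hN] at e5
        nlinarith
      calc W' ≤ Real.exp (cX k ϑ x a b) * RT (QS n) y a b := hQ
        _ ≤ Real.exp (cX k ϑ x a b) * ((1 + η) * (NL R y a * NR R y b)) :=
          mul_le_mul_of_nonneg_left e4 (Real.exp_pos _).le
        _ = (1 + η) * (Real.exp (cX k ϑ x a b) * (NL R y a * NR R y b)) := by ring
  by_cases hex : ∃ p ∈ WS β ζ ϑ n R j, ¬ Bd K k q ϑ β ζ η n R x p.1 p.2
  · obtain ⟨p₀, hp₀, hB₀⟩ := hex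
    obtain ⟨-, -, g1, g2, g3, g4, g5, -, -, -⟩ := hkey p₀ hp₀ hB₀
    rw [abs_le] at g3
    have hW1 : 0 < W' := lt_of_lt_of_le (Real.exp_pos _) g1
    -- the logarithm
    have l1 : Real.exp (β * j) ≤ WX K k q r ϑ n D x := by
      rw [hWX]
      calc Real.exp (β * j) ≤ Real.exp (cX k ϑ x p₀.1 p₀.2) := by
            refine Real.exp_le_exp.2 ?_
            nlinarith [mul_pos hβ hζ]
        _ ≤ W' := g1
        _ ≤ cc r ϑ * W' := by nlinarith
    have l2 : WX K k q r ϑ n D x < Real.exp (β * ((j : ℝ) + 1)) := by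
      have m1 : (2 : ℝ) < Real.exp 4 := by
        have := Real.add_one_le_exp (4 : ℝ)
        linarith
      have m2 : WX K k q r ϑ n D x ≤
          2 * (Real.exp (cX k ϑ x p₀.1 p₀.2) * Real.exp (β * ζ / 4)) := by
        rw [hWX]
        exact mul_le_mul hc2 g2 hW0 (by norm_num)
      calc WX K k q r ϑ n D x ≤ 2 * (Real.exp (cX k ϑ x p₀.1 p₀.2) * Real.exp (β * ζ / 4)) := m2
        _ < Real.exp 4 * (Real.exp (cX k ϑ x p₀.1 p₀.2) * Real.exp (β * ζ / 4)) :=
          mul_lt_mul_of_pos_right m1 (by positivity)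
        _ = Real.exp (4 + (cX k ϑ x p₀.1 p₀.2 + β * ζ / 4)) := by
          rw [Real.exp_add, Real.exp_add]
        _ ≤ Real.exp (β * ((j : ℝ) + 1)) := by
          refine Real.exp_le_exp.2 ?_
          nlinarith [mul_pos hβ hζ]
    have c1 : Real.exp (β * 3) ≤ WX K k q r ϑ n D x :=
      le_trans (Real.exp_le_exp.2 (mul_le_mul_of_nonneg_left hj3' hβ.le)) l1
    have c2 : WX K k q r ϑ n D x < Real.exp (β * ((J : ℝ) + 1)) :=
      lt_of_lt_of_le l2 (Real.exp_le_exp.2 (mul_le_mul_of_nonneg_left (by linarith) hβ.le))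
    have hWp : 0 < WX K k q r ϑ n D x := lt_of_lt_of_le (Real.exp_pos _) l1
    have hl : lX K k q r ϑ β n D J x = j := by
      unfold lX
      rw [if_pos ⟨c1, c2⟩, Nat.floor_eq_iff' (by omega)]
      constructor
      · rw [le_div_iff₀ hβ, Real.le_log_iff_exp_le hWp, mul_comm]
        exact l1
      · rw [div_lt_iff₀ hβ, Real.log_lt_iff_lt_exp hWp, mul_comm]
        exact l2
    have hw : wX K k q r ϑ β n D J x = WX K k q r ϑ n D x := by
      unfold wX
      rw [if_pos ⟨c1, c2⟩]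
    rw [if_pos hl, hw, hWX, Real.mul_rpow (by linarith) hW0]
    have hcγ : 0 ≤ cc r ϑ ^ γ := Real.rpow_nonneg (by linarith) _
    rw [div_mul_eq_mul_div, mul_div_assoc]
    refine mul_le_mul_of_nonneg_left ?_ hcγ
    rw [div_le_iff₀ (by linarith : 0 < 1 + η)]
    -- the shares
    have hsh : ∀ p ∈ WS β ζ ϑ n R j, sh K k q ϑ β ζ η γ n R x p.1 p.2 ≤
        (if p ∈ PQ n D then (if gX K k q ϑ x p then Real.exp (cX k ϑ x p.1 p.2) else 0) else 0) *
          (W' ^ (γ - 1) * (1 + η)) := by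
      intro p hp
      unfold sh
      by_cases hB : Bd K k q ϑ β ζ η n R x p.1 p.2
      · rw [if_neg (not_not.2 hB)]
        refine mul_nonneg ?_ (mul_nonneg (Real.rpow_nonneg hW0 _) (by linarith))
        split_ifs
        · exact (Real.exp_pos _).le
        · exact le_rfl
        · exact le_rfl
      · rw [if_pos hB]
        obtain ⟨k1, k2, -, -, -, -, -, k3, k4, k5⟩ := hkey p hp hB
        rw [if_pos k1, if_pos k2]
        have hX : 0 < NL R y p.1 * NR R y p.2 := by nlinarith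
        have s1 : ((1 + η) * (Real.exp (cX k ϑ x p.1 p.2) * (NL R y p.1 * NR R y p.2))) ^ (γ - 1)
            ≤ W' ^ (γ - 1) :=
          Real.rpow_le_rpow_of_nonpos hW1 k3 (by linarith)
        rw [Real.mul_rpow (by linarith) (by positivity),
          Real.mul_rpow (Real.exp_pos _).le hX.le] at s1
        have s2 : Real.exp (γ * cX k ϑ x p.1 p.2) =
            Real.exp (cX k ϑ x p.1 p.2) * Real.exp (cX k ϑ x p.1 p.2) ^ (γ - 1) := by
          rw [← Real.exp_mul, ← Real.exp_add]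
          congr 1
          ring
        have s3 : 1 ≤ (1 + η) ^ (γ - 1) * (1 + η) := by
          have s4 : (1 + η) ^ (γ - 1) * (1 + η) = (1 + η) ^ γ := by
            rw [Real.rpow_sub (by linarith), Real.rpow_one, div_mul_cancel₀]
            linarith
          rw [s4]
          exact Real.one_le_rpow (by linarith) hγ0.le
        set A : ℝ := Real.exp (cX k ϑ x p.1 p.2) with hA
        set B : ℝ := A ^ (γ - 1) with hBd
        set C : ℝ := (NL R y p.1 * NR R y p.2) ^ (γ - 1) with hC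
        have hA0 : 0 < A := Real.exp_pos _
        have hB0 : 0 ≤ B := Real.rpow_nonneg hA0.le _
        have hC0 : 0 ≤ C := Real.rpow_nonneg hX.le _
        rw [s2]
        calc A * B * C = (A * (B * C)) * 1 := by ring
          _ ≤ (A * (B * C)) * ((1 + η) ^ (γ - 1) * (1 + η)) :=
            mul_le_mul_of_nonneg_left s3 (by positivity)
          _ = A * (((1 + η) ^ (γ - 1) * (B * C)) * (1 + η)) := by ring
          _ ≤ A * (W' ^ (γ - 1) * (1 + η)) :=
            mul_le_mul_of_nonneg_left (mul_le_mul_of_nonneg_right s1 (by linarith)) hA0.le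
    have hfin : ∑ p ∈ WS β ζ ϑ n R j,
        (if p ∈ PQ n D then (if gX K k q ϑ x p then Real.exp (cX k ϑ x p.1 p.2) else 0) else 0)
          ≤ W' := by
      rw [← Finset.sum_filter, hW']
      refine Finset.sum_le_sum_of_subset_of_nonneg ?_ fun p _ _ => ?_
      · intro p hp
        exact (Finset.mem_filter.1 hp).2
      · split_ifs
        · exact (Real.exp_pos _).le
        · exact le_rfl
    calc ∑ p ∈ WS β ζ ϑ n R j, sh K k q ϑ β ζ η γ n R x p.1 p.2
        ≤ ∑ p ∈ WS β ζ ϑ n R j, (if p ∈ PQ n D then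
          (if gX K k q ϑ x p then Real.exp (cX k ϑ x p.1 p.2) else 0) else 0) *
          (W' ^ (γ - 1) * (1 + η)) := Finset.sum_le_sum hsh
      _ = (∑ p ∈ WS β ζ ϑ n R j, (if p ∈ PQ n D then
          (if gX K k q ϑ x p then Real.exp (cX k ϑ x p.1 p.2) else 0) else 0)) *
          (W' ^ (γ - 1) * (1 + η)) := by rw [Finset.sum_mul]
      _ ≤ W' * (W' ^ (γ - 1) * (1 + η)) := mul_le_mul_of_nonneg_right hfin
          (mul_nonneg (Real.rpow_nonneg hW0 _) (by linarith))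
      _ = W' ^ γ * (1 + η) := by
          rw [← mul_assoc]
          congr 1
          rw [Real.rpow_sub hW1, Real.rpow_one, mul_div_cancel₀ _ hW1.ne']
  · push Not at hex
    have h0 : ∑ p ∈ WS β ζ ϑ n R j, sh K k q ϑ β ζ η γ n R x p.1 p.2 = 0 := by
      refine Finset.sum_eq_zero fun p hp => ?_
      unfold sh
      rw [if_neg (not_not.2 (hex p hp))]
    rw [h0, mul_zero]
    split_ifs
    · exact Real.rpow_nonneg hw0 _
    · exact le_rfl

end Pool.Agent.H91.EX
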